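import Mathlib
import Pool.Agent.T9h43.MT.Main

/-!
# The Mumford-Tate conjecture for abelian varieties and places where inertia has an irreducible part

Let `A` be an abelian variety over a finitely generated field of complex numbers, `W = H_1(A, ℚ)`
with the polarization form `ω₀`, `T` the tangent space at the origin and `per : W → T` the inclusion;
`V = ℚ_ℓ ⊗ W` is the rational Tate module, with the action `ρ` of the Galois group `Γ` and the
cyclotomic character `χ`.  Let `K` be the algebraic closure of `ℚ_ℓ` and `X = K ⊗ V`.  A subspace of `X`
is *strongly irreducible* if it is a minimal nonzero subspace stable under a subgroup of finite index.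
If the endomorphism ring of `A` over the algebraic closure is `ℤ` there is just one, `X`.

Hypotheses.

* `hss`, `hF`: the theorems of Faltings (semisimplicity; the endomorphisms of `V` which commute with
  an open subgroup of the Galois group are combinations of endomorphisms of `A`).
* `hP`: the theorem of Pink that the weak Hodge cocharacters generate the `ℓ`-adic monodromy group.
* `hconj`: every strongly irreducible subspace `U` of dimension at least two satisfies
  `HasConjugates`, for instance `Splits`: there is a subgroup `G` of `Γ` (an inertia group), and
  `U = T ⊕ Z` where `G` acts on `Z` by scalars and on `T` irreducibly, or with multiplicities at most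
  one (or small), and some `h` in `G` acts on `T` by a scalar different from the scalar by which it acts
  on `Z`.

Theorem.  Suppose that the strongly irreducible lines are not self-dual and that non-self-dual
strongly irreducible subspaces are not isomorphic to proper twists of each other (there are no
such lines and subspaces for types I, II).  Then the Mumford-Tate conjecture holds for `A`: all Tate
classes in all the tensor powers `(H^1)^{⊗ 2 m}(m)` are linear combinations of Hodge classes
(`hcen` is the theorem that the Mumford-Tate conjecture holds for the centres of the groups;
Vasiu, Ullmo-Yafaev).  If all strongly irreducible subspaces are symplectic (types I, II) it holds, without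
`hcen`, in the strong form: all Tate classes are combinations of products of Hodge classes of degree
two, so that the Mumford-Tate group and the `ℓ`-adic monodromy group are equal to the full
group of the symplectic similitudes that commute with `End(A)`, and the Hodge and the Tate
conjecture hold for all powers of `A`.

Examples (`End(A) = ℤ` over the algebraic closure, so that `U = X`).

1. `A` has potentially good reduction at some place, the inertia group `I` acts on `V` through a finite
   group that contains an element `h` acting by `-1` on the complement `T` of `V ^ I ≠ 0`, and `T` is
   irreducible over `K`, or a sum of distinct irreducible representations of `I`.  There is no condition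
   on the dimensions of `T` and of `V ^ I`.  The reduction may be wild: `I` may act on `T` through an
   extraspecial `2`-group, with `h` the nontrivial central element (tails `y ^ 2 + y = x ^ (2 ^ n + 1)` of
   the reduction of a curve, in residue characteristic `2`).
2. `A` is the Jacobian of `y ^ 2 = (x ^ m - p) f (x)`, where `p` is odd, `m ≥ 3` is odd and is `p` or prime
   to `p`, and `f` is a monic polynomial with integral coefficients, of degree at least two, whose
   reduction modulo `p` is separable and does not vanish at `0`.  Here `T`, of dimension `m - 1`, belongs
   to the cluster of the roots of `x ^ m - p`; it is a sum of distinct characters of an abelian subgroup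
   of the inertia group at `p`, which contains `h`.  (Splittings with commutative `G` and `m = 1` are
   contained in `SumFreeEigenvalues`.)
3. `A` has potentially good reduction at some place where the inertia group acts on `V` through a group of
   order three and its fixed space has codimension two (Kodaira types `IV`, `IV*`), by the second condition
   (isolated ratios, `r = 3`).  The case of order `4` or `6`, with a condition on a Frobenius element, is
   `CuspMumfordTate`.
4. The dimension of `V` is not divisible by four, and an element of `Γ` acts as `-1` on a subspace of
   dimension less than an eighth of it, and trivially on the orthogonal complement.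

The other parts of `HasConjugates` are: one element of the group, with eigenvalues whose indices can be
divided into two classes `S` and `S'` such that the ratios of an eigenvalue of `S'` and one of `S` occur
only once as ratios of eigenvalues (at most `r` times, with small `r`, in the symplectic case); and, in
general, a subspace `Z` such that for every operator `y` that does not preserve `Z` some linear
combination of the conjugates `g y g⁻¹`, with `g` in the Galois group, has rank one (or small rank).

The proof.  The Lie algebra of the `ℓ`-adic monodromy group is stable under conjugation by all elements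
of the Galois group, and its weak Hodge elements act irreducibly on `U`, so that one of them does not
preserve `Z`.  By the condition some linear combination of its conjugates has small rank; for
splittings this is Burnside's theorem for the action of `G` on the off-diagonal part of the operators.
Components of it with respect to weak Hodge elements are elements of square zero and of at most the same
rank.  In the starting files elements of small rank come from nilpotent monodromy, from slope operators,
or from the eigenvalues of one Frobenius element (`HasFewRatios`, with `4 r < dim U` and a parity
condition), and in `SumFreeEigenvalues` from simple eigenvalues of commuting elements; here new are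
noncommutative groups `G`, multiplicities `m > 1`, and the cuts of the set of the eigenvalues.
-/

set_option autoImplicit false

namespace Pool.Agent.Results.MP_33b3f9_ag.ConjugationSplittings

open Module TensorProduct Pool.Agent.Y126.Notions
open Pool.Agent.H204R3.SP Pool.Agent.H204R3.GP Pool.Agent.W522.U
open Pool.Agent.TH118.MT Pool.Agent.T9h43.MT

theorem result (ℓ : ℕ) [Fact ℓ.Prime]
    -- the complex abelian variety `A` with a polarization
    {W T : Type} [AddCommGroup W] [Module ℚ W] [FiniteDimensional ℚ W] [AddCommGroup T] [Module ℂ T]
    (per : W →+ T) (ω₀ : W →ₗ[ℚ] W →ₗ[ℚ] ℚ) (halt : ∀ v, ω₀ v v = 0)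
    (hnondeg : ∀ u, (∀ v, ω₀ v u = 0) → u = 0) (hω₀ : IsHodgeBilinear per ω₀)
    -- the action of the Galois group on the Tate module
    {Γ : Type} [Group Γ] (ρ : Representation ℚ_[ℓ] Γ (ℚ_[ℓ] ⊗[ℚ] W)) (χ : Γ →* ℚ_[ℓ])
    (hω : ∀ s u v, bcb ℚ_[ℓ] ω₀ (ρ s u) (ρ s v) = χ s * bcb ℚ_[ℓ] ω₀ u v)
    -- the theorems of Faltings and Pink
    (hss : FiniteIndexSemisimple ρ) (hF : FaltingsEnd per (incl ℚ_[ℓ] W) ρ)
    (hP : WeakHodgeGenerate (bcr ρ (AlgebraicClosure ℚ_[ℓ])) (bcc χ (AlgebraicClosure ℚ_[ℓ])))
    -- the conjugation action
    (hconj : ∀ U, StronglyIrreducible (bcr ρ (AlgebraicClosure ℚ_[ℓ])) U →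
      2 ≤ finrank (AlgebraicClosure ℚ_[ℓ]) U →
      HasConjugates (bcr ρ (AlgebraicClosure ℚ_[ℓ])) (bcc χ (AlgebraicClosure ℚ_[ℓ])) U) :
    (NoSelfDualLines (bcr ρ (AlgebraicClosure ℚ_[ℓ])) (bcc χ (AlgebraicClosure ℚ_[ℓ])) →
      NoProperTwists (bcr ρ (AlgebraicClosure ℚ_[ℓ])) (bcc χ (AlgebraicClosure ℚ_[ℓ])) →
      CentreTheorem per (Pool.Agent.TH118.MT.extend (k := ℚ_[ℓ]) (AlgebraicClosure ℚ_[ℓ])
        (incl ℚ_[ℓ] W)) (bcr ρ (AlgebraicClosure ℚ_[ℓ])) (bcc χ (AlgebraicClosure ℚ_[ℓ])) →
      MumfordTate per (incl ℚ_[ℓ] W) ρ χ) ∧
    ((∀ U, StronglyIrreducible (bcr ρ (AlgebraicClosure ℚ_[ℓ])) U →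
        IsSymplectic (bcr ρ (AlgebraicClosure ℚ_[ℓ])) (bcc χ (AlgebraicClosure ℚ_[ℓ])) U) →
      MumfordTateStrong per (incl ℚ_[ℓ] W) ρ χ) := by
  refine ⟨fun hlines htwists hcen => ?_, fun hsym => ?_⟩
  · exact Pool.Agent.Y144.MT.mt_of_one ℓ per ω₀ halt hnondeg hω₀ ρ χ hω hss hF hcen
      (fun ω hl hinv hpr U hU h2 => one_of_conj ω hl hinv hpr hU hP h2 (hconj U hU h2))
      hlines htwists
  · exact Pool.Agent.Y144.MT.mt_strong_of_one ℓ per ω₀ halt hnondeg hω₀ ρ χ hω hss hF hsym
      (fun ω hl hinv hpr U hU h2 => one_of_conj ω hl hinv hpr hU hP h2 (hconj U hU h2))

end Pool.Agent.Results.MP_33b3f9_ag.ConjugationSplittings
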