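import Pool.Agent.T9h39.MtFin

/-!
# The Mumford-Tate conjecture for any abelian variety is equivalent to its part of degree four

Let `A` be **any** abelian variety over a finitely generated field of complex numbers, `Γ` the Galois
group, `K` an algebraic closure of `ℚ_ℓ`, `W = H_1(A, ℚ)`, `T` the tangent space at the origin,
`per : W → T` the inclusion, `V = K ⊗ V_ℓ(A)` with the comparison map `comp : W → V`, the Galois
action `ρ` and the cyclotomic character `χ`, and `ω` a polarization form on `V`.

The Mumford-Tate conjecture says that all Tate classes in all the `(H¹)^(⊗ 2 m) (m)` are combinations
of Hodge classes (`MumfordTate`); these are the classes of all codimensions on all the powers `A ^ n`.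

**Theorem.**  The Mumford-Tate conjecture holds for `A` if and only if all Tate classes in
`(H¹)^(⊗ 4) (2)` are combinations of Hodge classes (`MumfordTateFour`): it is enough to consider
**codimension two on the fourth power of `A`**. There is no condition on the dimension and the
endomorphisms of `A`.

The hypotheses of the theorem are known theorems about abelian varieties:

* `hss`: semisimplicity of the restrictions of `ρ` to the subgroups of finite index (Faltings);
* `hbig` (`LieAlgebraLarge`): the operators which commute with all operators that kill the Tate
  classes commute with an open subgroup of `Γ`. (The operators that kill the Tate classes include the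
  Lie algebra of the kernel `G¹` of `χ` on the `ℓ`-adic monodromy group `G`, and `G` has the same
  identity component as the product of `G¹` and the group of homotheties, by a theorem of Bogomolov.)
* `hcen` (`LieCentreTheorem`): the theorem of Vasiu and of Ullmo and Yafaev on the centres of the two
  groups.

The first part of the result does not use `hcen`: if the Tate classes in `(H¹)^(⊗ 4) (2)` are
combinations of Hodge classes, then the commutators of any two operators that kill all Hodge classes
(elements of the Lie algebra of the Hodge group) kill all Tate classes; so the derived groups of the
Mumford-Tate group and of the `ℓ`-adic monodromy group are equal.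

Idea of the proof. Let `L` be the Lie algebra of the operators that kill the Tate classes, and `L'` its
derived algebra, on which the trace form is nondegenerate, as `ρ` is semisimple. The
orthogonal projection of `End(V)` to `L'` commutes with `Γ`. So it is a Tate class in
`(H¹)^(⊗ 4) (2)`, and by the hypothesis it commutes with the Lie algebra `M` of the Hodge group. So `L'`
is an ideal of `M`, and each element of `M` is the sum of an element of `L'` and an element that
commutes with `L'`; using `hbig` one shows that the latter is in the centre of the algebra
`End(A) ⊗ K`. So each Tate class is a sum of Tate classes that are eigenvectors of `M`, to which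
`hcen` applies.
-/

namespace Pool.Agent.Results.MP_33b3f9_ag.DegreeFourDecides

open Pool.Agent.H204R3.GP Pool.Agent.TH118.MT Pool.Agent.T9h39.Mt

/-- **The Mumford-Tate conjecture is equivalent to its part of degree four.** -/
theorem result {K : Type} [Field K] [CharZero K] [IsAlgClosed K]
    -- the complex abelian variety
    {W T : Type} [AddCommGroup W] [Module ℚ W] [AddCommGroup T] [Module ℂ T] (per : W →+ T)
    -- the Tate module and the action of the Galois group
    {V Γ : Type} [AddCommGroup V] [Module K V] [FiniteDimensional K V] [Group Γ] (comp : W →+ V)
    (ρ : Representation K Γ V) (χ : Γ →* K)
    -- the polarization form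
    (ω : V →ₗ[K] V →ₗ[K] K) (halt : ∀ v, ω v v = 0) (hnd : ∀ u, (∀ v, ω u v = 0) → u = 0)
    (hω : ∀ g u v, ω (ρ g u) (ρ g v) = χ g * ω u v)
    -- the theorems of Faltings and Bogomolov
    (hss : FiniteIndexSemisimple ρ) (hbig : LieAlgebraLarge ρ χ) :
    (MumfordTateFour per comp ρ χ → ∀ x y : Module.End K V, KillsHodge per comp x →
      KillsHodge per comp y → KillsTate ρ χ (x * y - y * x)) ∧
    -- the theorem on the centre
    (LieCentreTheorem per comp ρ χ →
      (MumfordTate per comp ρ χ ↔ MumfordTateFour per comp ρ χ)) :=
  ⟨fun h4 _ _ hx hy => derived halt hnd hω hss hbig h4 hx hy,
    fun hcen => mt_iff halt hnd hω hss hbig hcen⟩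

end Pool.Agent.Results.MP_33b3f9_ag.DegreeFourDecides
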