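import Mathlib
import Pool.Agent.T9h64.MT.Large

/-!
# The Mumford-Tate conjecture for abelian varieties with an element of the Galois group that has a
large eigenspace and simple other eigenvalues

Let `A` be an abelian variety over a finitely generated field of complex numbers, `W = H_1(A, ℚ)`
with the polarization form `ω₀`, `T` the tangent space at the origin and `per : W → T` the inclusion;
`V = ℚ_ℓ ⊗ W` is the rational Tate module, with the action `ρ` of the Galois group `Γ` and the
cyclotomic character `χ`.  Let `K` be the algebraic closure of `ℚ_ℓ` and `X = K ⊗ V`.  A subspace of `X`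
is *strongly irreducible* if it is a minimal nonzero subspace stable under a subgroup of finite index.
If the endomorphism ring of `A` over the algebraic closure is `ℤ` there is just one, `X`.

Hypotheses.

* `hss`, `hF`: the theorems of Faltings (semisimplicity; the endomorphisms of `V` which commute with
  an open subgroup of the Galois group are combinations of endomorphisms of `A`).
* `hP`: the theorem of Pink that the weak Hodge elements generate the Lie algebra: the operators that
  commute with all of them commute with an open subgroup of the Galois group.
* `hlarge`: for every strongly irreducible subspace `U` of dimension at least two there are finitely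
  many commuting diagonalizable elements `γ 1, ..., γ r` of the Galois group that commute with the
  endomorphisms of `A` (`r = 1` is the basic case), and a subgroup `H` of `(Kˣ) ^ r`, with the
  following property (`HasLargePart`). We consider the classes modulo `H` of the families of
  eigenvalues of the `γ k` on `U`. One class `d₀` has multiplicity `D`, the other classes have
  multiplicity one, their number is `m ≥ 1`, and either `U` is symplectic, `d₀ ^ 2` is the class of the
  cyclotomic character and `m ^ 2 < 2 D`, or `d d' ≠ d₀ ^ 2` for all classes `d` and `d'` different
  from `d₀`, and `m (m - 1) < D`.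

Theorem.  Suppose that the strongly irreducible lines are not self-dual and that non-self-dual
strongly irreducible subspaces are not isomorphic to proper twists of each other (there are no
such lines and subspaces for types I, II).  Then the Mumford-Tate conjecture holds for `A`: all Tate
classes in all the tensor powers `(H^1)^{⊗ 2 m}(m)` are linear combinations of Hodge classes
(`hcen` is the theorem that the Mumford-Tate conjecture holds for the centres of the groups;
Vasiu, Ullmo-Yafaev).  If all strongly irreducible subspaces are symplectic (types I, II) it holds, without
`hcen`, in the strong form: all Tate classes are combinations of products of Hodge classes of degree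
two, so that the Mumford-Tate group and the `ℓ`-adic monodromy group are equal to the full
group of the symplectic similitudes that commute with `End(A)`, and the Hodge and the Tate
conjecture hold for all powers of `A`.

Example 1. Let `End(A) = ℤ` over the algebraic closure, and let `γ` be an element of an inertia group
at a place, of residue characteristic different from `ℓ`, where `A` has potentially good reduction.
If `γ` has `2 k` eigenvalues different from `1`, all of them simple, and `dim A > k ^ 2 + k`, `k ≥ 1`, the
theorem applies (`r = 1`, `H = 1`, `d₀ = 1`).  The order of `γ` is arbitrary; `γ` may have order three.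
For instance let `A` be the Jacobian of a curve whose reduction at some place has one singular
point `y ^ a = x ^ b`, where `a` and `b` are coprime and prime to the residue characteristic, deformed
to `y ^ a = x ^ b + π` for a uniformizer `π`.  The eigenvalues different from `1` of a generator of the
tame inertia group are the products `α β` for the roots of unity `α ≠ 1` of order dividing `a` and
`β ≠ 1` of order dividing `b`; they are different from each other and `k = (a - 1) (b - 1) / 2`.
(If `a = 2`, the theorem `SumFreeEigenvalues` applies in all dimensions greater than `k`.)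

Example 2. Let `End(A) ⊗ ℚ` be an imaginary quadratic field, such that the two subspaces `U` and `U'` of
`X` given by the embeddings of this field in `K` are not isomorphic up to a character. The theorem
applies if an element `γ` of an inertia group has `m` eigenvalues different from `1` on `U`, all of
them simple, no two of them (equal or not) with product one, and `m (m - 1) < dim U - m`.

Example 3. One may use a power `γ 2` of a Frobenius element at the same place that commutes with
`γ 1 = γ`, and take for `H` the group generated by the pairs `(1, a / a')` for the eigenvalues `a` and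
`a'` of `γ 2` on the space `V₀` of the vectors that are fixed by `γ 1`.  Then no condition on the
Frobenius eigenvalues on `V₀` is needed, and the pairs of eigenvalues of `γ 1` and `γ 2` on the
complement of `V₀` need only be different modulo `H`.

Idea of the proof: the classes define a grading of the Lie algebra `L` that kills all Tate
classes, because it is stable under conjugation by the `γ k`. Let `M` be the sum of the lines of degree
different from `d₀`. As `L` is irreducible on `U`, the part `U_{d₀}` is the sum of the images
of the lines `U_d` under the components of `L` of degree `d₀ / d`. These operators map `U_{d'}`,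
`d' ≠ d`, to lines in `M` or to zero, and if `D` is large there is one that is zero on these lines but not
on `U_d`. It has square zero, and rank one or two.
-/

set_option autoImplicit false

namespace Pool.Agent.Results.MP_33b3f9_ag.LargeFixedSpace

open Module TensorProduct Pool.Agent.Y126.Notions
open Pool.Agent.H204R3.SP Pool.Agent.H204R3.GP Pool.Agent.W522.U
open Pool.Agent.TH118.MT Pool.Agent.T9h64.MT

theorem result (ℓ : ℕ) [Fact ℓ.Prime]
    -- the complex abelian variety `A` with a polarization
    {W T : Type} [AddCommGroup W] [Module ℚ W] [FiniteDimensional ℚ W] [AddCommGroup T] [Module ℂ T]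
    (per : W →+ T) (ω₀ : W →ₗ[ℚ] W →ₗ[ℚ] ℚ) (halt : ∀ v, ω₀ v v = 0)
    (hnondeg : ∀ u, (∀ v, ω₀ v u = 0) → u = 0) (hω₀ : IsHodgeBilinear per ω₀)
    -- the action of the Galois group on the Tate module
    {Γ : Type} [Group Γ] (ρ : Representation ℚ_[ℓ] Γ (ℚ_[ℓ] ⊗[ℚ] W)) (χ : Γ →* ℚ_[ℓ])
    (hω : ∀ s u v, bcb ℚ_[ℓ] ω₀ (ρ s u) (ρ s v) = χ s * bcb ℚ_[ℓ] ω₀ u v)
    -- the theorems of Faltings
    (hss : FiniteIndexSemisimple ρ) (hF : FaltingsEnd per (incl ℚ_[ℓ] W) ρ)
    -- the theorem of Pink
    (hP : WeakHodgeGenerate (bcr ρ (AlgebraicClosure ℚ_[ℓ])) (bcc χ (AlgebraicClosure ℚ_[ℓ])))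
    -- the elements of the Galois group
    (hlarge : ∀ U, StronglyIrreducible (bcr ρ (AlgebraicClosure ℚ_[ℓ])) U →
      2 ≤ finrank (AlgebraicClosure ℚ_[ℓ]) U →
      HasLargePart (bcr ρ (AlgebraicClosure ℚ_[ℓ])) (bcc χ (AlgebraicClosure ℚ_[ℓ])) U) :
    (NoSelfDualLines (bcr ρ (AlgebraicClosure ℚ_[ℓ])) (bcc χ (AlgebraicClosure ℚ_[ℓ])) →
      NoProperTwists (bcr ρ (AlgebraicClosure ℚ_[ℓ])) (bcc χ (AlgebraicClosure ℚ_[ℓ])) →
      CentreTheorem per (Pool.Agent.TH118.MT.extend (k := ℚ_[ℓ]) (AlgebraicClosure ℚ_[ℓ])
        (incl ℚ_[ℓ] W)) (bcr ρ (AlgebraicClosure ℚ_[ℓ])) (bcc χ (AlgebraicClosure ℚ_[ℓ])) →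
      MumfordTate per (incl ℚ_[ℓ] W) ρ χ) ∧
    ((∀ U, StronglyIrreducible (bcr ρ (AlgebraicClosure ℚ_[ℓ])) U →
        IsSymplectic (bcr ρ (AlgebraicClosure ℚ_[ℓ])) (bcc χ (AlgebraicClosure ℚ_[ℓ])) U) →
      MumfordTateStrong per (incl ℚ_[ℓ] W) ρ χ) := by
  refine ⟨fun hlines htwists hcen => ?_, fun hsym => ?_⟩
  · exact Pool.Agent.Y144.MT.mt_of_one ℓ per ω₀ halt hnondeg hω₀ ρ χ hω hss hF hcen
      (fun ω hl hinv hpr U hU h2 => one_of_largePart ω hl hinv hpr hP hU h2 (hlarge U hU h2))
      hlines htwists
  · exact Pool.Agent.Y144.MT.mt_strong_of_one ℓ per ω₀ halt hnondeg hω₀ ρ χ hω hss hF hsym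
      (fun ω hl hinv hpr U hU h2 => one_of_largePart ω hl hinv hpr hP hU h2 (hlarge U hU h2))

end Pool.Agent.Results.MP_33b3f9_ag.LargeFixedSpace
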