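import Mathlib
import Pool.Agent.T9h64.MT.Main

/-!
# The Mumford-Tate conjecture for abelian varieties with an element of the Galois group whose
eigenvalues are sum-free: inertia groups of finite order, complex reflections, Frobenius elements

Let `A` be an abelian variety over a finitely generated field of complex numbers, `W = H_1(A, ℚ)`
with the polarization form `ω₀`, `T` the tangent space at the origin and `per : W → T` the inclusion;
`V = ℚ_ℓ ⊗ W` is the rational Tate module, with the action `ρ` of the Galois group `Γ` and the
cyclotomic character `χ`.  Let `K` be the algebraic closure of `ℚ_ℓ` and `X = K ⊗ V`.  A subspace of `X`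
is *strongly irreducible* if it is a minimal nonzero subspace stable under a subgroup of finite index.
If the endomorphism ring of `A` over the algebraic closure is `ℤ` there is just one, `X`.

Hypotheses.

* `hss`, `hF`: the theorems of Faltings (semisimplicity; the endomorphisms of `V` which commute with
  an open subgroup of the Galois group are combinations of endomorphisms of `A`).
* `hP`: the theorem of Pink that the weak Hodge elements generate the Lie algebra: the operators that
  commute with all of them commute with an open subgroup of the Galois group.
* `hclasses`: for every strongly irreducible subspace `U` of dimension at least two there are finitely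
  many commuting diagonalizable elements `γ 1, ..., γ r` of the Galois group that commute with the
  endomorphisms of `A` (`r = 1` is the basic case), and a subgroup `H` of `(Kˣ) ^ r`, with the
  following property (`HasSumFreeClasses`). We consider the classes modulo `H` of the families of
  eigenvalues of the `γ k`. There is a class `d₀` on `U` such that the other classes `d₀ x` on `U` are
  *sum-free*: if `d₀ x`, `d₀ y` and `d₀ x y` are such classes then `x y = 1`. One of them, `c = d₀ z`, has
  multiplicity one, and either `d₀ z⁻¹` is not a class on `U`, or `U` is symplectic and `d₀ ^ 2` is the
  class of the cyclotomic character. There is no condition on the action of the `γ k` on the other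
  strongly irreducible subspaces.

Theorem.  Suppose that the strongly irreducible lines are not self-dual and that non-self-dual
strongly irreducible subspaces are not isomorphic to proper twists of each other (there are no
such lines and subspaces for types I, II).  Then the Mumford-Tate conjecture holds for `A`: all Tate
classes in all the tensor powers `(H^1)^{⊗ 2 m}(m)` are linear combinations of Hodge classes
(`hcen` is the theorem that the Mumford-Tate conjecture holds for the centres of the groups;
Vasiu, Ullmo-Yafaev).  If all strongly irreducible subspaces are symplectic (types I, II) it holds, without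
`hcen`, in the strong form: all Tate classes are combinations of products of Hodge classes of degree
two, so that the Mumford-Tate group and the `ℓ`-adic monodromy group are equal to the full
group of the symplectic similitudes that commute with `End(A)`, and the Hodge and the Tate
conjecture hold for all powers of `A`.

Example 1 (potentially good reduction of any unipotent rank).  Let `End(A) = ℤ` over the
algebraic closure.  Suppose that at one place of residue characteristic different from `ℓ`, where `A`
has potentially good reduction, an element `γ` of the inertia group has the following properties: `1`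
is an eigenvalue of `γ`, some power of `γ` is `-1` on the sum of the other eigenspaces, and one of the
other eigenvalues is simple. Then the theorem applies, with `r = 1`, `H = 1`, `d₀ = 1`: the product of
two eigenvalues different from `1` is not an eigenvalue different from `1`. For instance let `A` be the
Jacobian of the curve `y ^ 2 = f (x)` with endomorphism ring `ℤ`, and let `f` have the reduction
`(x - a_1) ^ r_1 ... (x - a_s) ^ r_s h (x)` at a place of residue characteristic prime to
`2 r_1 ... r_s`, with different `a_i`, odd `r_i ≥ 3`, and `h` squarefree and not zero at the `a_i`, such
that the factor of `f` with the roots near `a_i` is an Eisenstein polynomial in `x - a_i`. The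
eigenvalues of a generator of the tame inertia group are the numbers `-ζ` for the roots of unity
`ζ ≠ 1` of order dividing some `r_i` and, if `(x - a_1) ... (x - a_s) h (x)` has degree at least three,
the number `1`. The theorem applies if this degree is at least three and there is an `i` such that
`r_i` divides no `r_j` with `j ≠ i`.  There is no place of bad semistable reduction, no condition on the
dimension and on the Galois group of `f`, and the codimension of the fixed space of the inertia group
is arbitrary; for `s = 1` and `r_1 = 3` this is the case of a cusp (`CuspMumfordTate`, where this
codimension is two).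

Example 2 (complex reflections).  Let `End(A) ⊗ ℚ` be an imaginary quadratic field `E`, such that
the two subspaces `U` and `U'` of `X` given by the two embeddings of `E` in `K` are not isomorphic up to
a character. The theorem applies if the multiplicity of `1` as an eigenvalue of an element `γ` of an
inertia group on `U` is `dim U - 1`, and the other eigenvalue is a root of unity of order at least
three (a complex reflection). More generally the eigenvalues of `γ` on `U` different from `1` may be
sum-free, one of them, `z`, being simple, and `z⁻¹` not being an eigenvalue.

Example 3 (Frobenius elements).  Let `End(A) = ℤ`, and let the reduction of `A` at a good place be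
isogenous to a product `B × C` of nonzero abelian varieties, `B` ordinary, such that the Frobenius
eigenvalues of `B` and of `C` are independent (no product of powers of eigenvalues of `B`
and of the number `q` is a product of powers of the eigenvalues of `C`, except for the consequences of
the pairing of the eigenvalues `a` and `q / a` and torsion) and one eigenvalue of `B` is simple and not
equivalent to others. Here `H` is generated by the ratios of the eigenvalues of `C`; that the classes
are sum-free follows from the slopes `0` and `1` of `B`. For instance this holds if `B` is absolutely
simple and ordinary, and the fields generated by all Frobenius eigenvalues of `B` and by all Frobenius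
eigenvalues of `C` have the intersection `ℚ`; there is no other condition on `C`.

Idea of the proof: the classes define a grading of the Lie algebra `L` that kills all Tate
classes, because it is stable under conjugation by the `γ k`. As `L` is irreducible on `U`, the
components of `L` of degree `z` map `U_{d₀}` onto `U_{d₀ z}` (here the sum-free condition is used), and
if `U_{d₀ z}` is a line such a component is of square zero and of rank one or two.
-/

set_option autoImplicit false

namespace Pool.Agent.Results.MP_33b3f9_ag.SumFreeEigenvalues

open Module TensorProduct Pool.Agent.Y126.Notions
open Pool.Agent.H204R3.SP Pool.Agent.H204R3.GP Pool.Agent.W522.U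
open Pool.Agent.TH118.MT Pool.Agent.T9h64.MT

theorem result (ℓ : ℕ) [Fact ℓ.Prime]
    -- the complex abelian variety `A` with a polarization
    {W T : Type} [AddCommGroup W] [Module ℚ W] [FiniteDimensional ℚ W] [AddCommGroup T] [Module ℂ T]
    (per : W →+ T) (ω₀ : W →ₗ[ℚ] W →ₗ[ℚ] ℚ) (halt : ∀ v, ω₀ v v = 0)
    (hnondeg : ∀ u, (∀ v, ω₀ v u = 0) → u = 0) (hω₀ : IsHodgeBilinear per ω₀)
    -- the action of the Galois group on the Tate module
    {Γ : Type} [Group Γ] (ρ : Representation ℚ_[ℓ] Γ (ℚ_[ℓ] ⊗[ℚ] W)) (χ : Γ →* ℚ_[ℓ])
    (hω : ∀ s u v, bcb ℚ_[ℓ] ω₀ (ρ s u) (ρ s v) = χ s * bcb ℚ_[ℓ] ω₀ u v)
    -- the theorems of Faltings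
    (hss : FiniteIndexSemisimple ρ) (hF : FaltingsEnd per (incl ℚ_[ℓ] W) ρ)
    -- the theorem of Pink
    (hP : WeakHodgeGenerate (bcr ρ (AlgebraicClosure ℚ_[ℓ])) (bcc χ (AlgebraicClosure ℚ_[ℓ])))
    -- the elements of the Galois group
    (hclasses : ∀ U, StronglyIrreducible (bcr ρ (AlgebraicClosure ℚ_[ℓ])) U →
      2 ≤ finrank (AlgebraicClosure ℚ_[ℓ]) U →
      HasSumFreeClasses (bcr ρ (AlgebraicClosure ℚ_[ℓ])) (bcc χ (AlgebraicClosure ℚ_[ℓ])) U) :
    (NoSelfDualLines (bcr ρ (AlgebraicClosure ℚ_[ℓ])) (bcc χ (AlgebraicClosure ℚ_[ℓ])) →
      NoProperTwists (bcr ρ (AlgebraicClosure ℚ_[ℓ])) (bcc χ (AlgebraicClosure ℚ_[ℓ])) →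
      CentreTheorem per (Pool.Agent.TH118.MT.extend (k := ℚ_[ℓ]) (AlgebraicClosure ℚ_[ℓ])
        (incl ℚ_[ℓ] W)) (bcr ρ (AlgebraicClosure ℚ_[ℓ])) (bcc χ (AlgebraicClosure ℚ_[ℓ])) →
      MumfordTate per (incl ℚ_[ℓ] W) ρ χ) ∧
    ((∀ U, StronglyIrreducible (bcr ρ (AlgebraicClosure ℚ_[ℓ])) U →
        IsSymplectic (bcr ρ (AlgebraicClosure ℚ_[ℓ])) (bcc χ (AlgebraicClosure ℚ_[ℓ])) U) →
      MumfordTateStrong per (incl ℚ_[ℓ] W) ρ χ) := by
  refine ⟨fun hlines htwists hcen => ?_, fun hsym => ?_⟩
  · exact Pool.Agent.Y144.MT.mt_of_one ℓ per ω₀ halt hnondeg hω₀ ρ χ hω hss hF hcen
      (fun ω hl hinv hpr U hU h2 => one_of_sumFree ω hl hinv hpr hP hU h2 (hclasses U hU h2))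
      hlines htwists
  · exact Pool.Agent.Y144.MT.mt_strong_of_one ℓ per ω₀ halt hnondeg hω₀ ρ χ hω hss hF hsym
      (fun ω hl hinv hpr U hU h2 => one_of_sumFree ω hl hinv hpr hP hU h2 (hclasses U hU h2))

end Pool.Agent.Results.MP_33b3f9_ag.SumFreeEigenvalues
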